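import Pool.Agent.P8H39.TI.Stm7
import Pool.Agent.P8H52.TI6.Bgp

/-! # Project TI (helper39), package BGB -/

set_option autoImplicit false

namespace Pool.Agent.P8H52.TI6

open Finset Pool.Agent.P8H39.TI

theorem t_BGB : S_UNI → S_HFB → S_NLB → S_PS → S_BGB := by
  classical
  intro hUNI hHFB hNLB hPS n k t r p F T ht htr hrk hn hF hT hp hlog
  obtain ⟨h2k, hr1, hr2⟩ := arith_a ht htr hrk hn
  have hrk' : r ≤ k := hrk.le
  have hkn : k ≤ n := by omega
  have hrn : r ≤ n := by omega
  set s : ℕ := (n - r).choose (k - r) with hs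
  set m : ℕ := (n - k - r).choose (k - r) with hm
  set M : ℕ := (n - t).choose (r - t) with hM
  have hs1 : 1 ≤ s := Nat.choose_pos (by omega)
  have hN1 : 1 ≤ n.choose r := Nat.choose_pos hrn
  have hp0 : 0 ≤ p := by linarith
  obtain ⟨f1, f2, f3⟩ := hHFB n k t r F htr hrk h2k hF
  set H : Finset (Finset (Fin n)) := (slice n r).filter (fun R =>
      2 * (n - r).choose (k - r) < 2 * deg F R + (n - k - r).choose (k - r)) with hH
  have hsp : (0 : ℝ) ≤ (s : ℝ) ^ p := Real.rpow_nonneg (by positivity) p
  -- the star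
  have hstar : (M : ℝ) * (s : ℝ) ^ p ≤ ell r p (star k T) := by
    have hd : ∀ R ∈ (slice n r).filter (fun R => T ⊆ R), (deg (star k T) R : ℝ) ^ p = (s : ℝ) ^ p := by
      intro R hR
      rw [mem_filter, mem_powersetCard] at hR
      have h1 : deg (star k T) R = s := by
        have h2 : (star k T).filter (fun A => R ⊆ A) = (slice n k).filter (fun A => R ⊆ A) := by
          ext A
          unfold Pool.Agent.P8H39.TI.star
          simp only [mem_filter]
          exact ⟨fun h => ⟨h.1.1, h.2⟩, fun h => ⟨⟨h.1, hR.2.trans h.2⟩, h.2⟩⟩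
        unfold deg
        rw [h2, Pool.Agent.P8H90.TI.card_above n k R (by rw [hR.1.2]; exact hrk'), hR.1.2]
      rw [h1]
    have hc : ((slice n r).filter (fun R => T ⊆ R)).card = M := by
      rw [Pool.Agent.P8H90.TI.card_above n r T (by rw [hT]; exact htr.le), hT]
    calc (M : ℝ) * (s : ℝ) ^ p = ∑ R ∈ (slice n r).filter (fun R => T ⊆ R), (s : ℝ) ^ p := by
          rw [sum_const, hc, nsmul_eq_mul]
      _ = ∑ R ∈ (slice n r).filter (fun R => T ⊆ R), (deg (star k T) R : ℝ) ^ p :=
          (sum_congr rfl hd).symm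
      _ ≤ ∑ R ∈ slice n r, (deg (star k T) R : ℝ) ^ p :=
          sum_le_sum_of_subset_of_nonneg (filter_subset _ _)
            (fun R _ _ => Real.rpow_nonneg (Nat.cast_nonneg _) p)
  -- the number of the sets of large degree
  have hHM : H.card ≤ M := by
    obtain ⟨T₀, -, hT₀⟩ : ∃ T₀ : Finset (Fin n), T₀ ⊆ univ ∧ T₀.card = t :=
      Finset.exists_subset_card_eq (by rw [card_univ, Fintype.card_fin]; omega)
    have h1 := Pool.Agent.P8H59.TI.card_le (k := r) hPS H T₀ ht htr (by omega) f2 hT₀
    have h2 : H.card ≤ (star r T₀).card := by exact_mod_cast h1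
    rwa [Pool.Agent.P8H90.TI.card_star n r T₀ (by omega), hT₀] at h2
  rcases hHM.lt_or_eq with hlt | heq
  · -- few sets of large degree
    have hN0 : (0 : ℝ) < (n.choose r : ℝ) := by exact_mod_cast hN1
    have hlow : ∀ R ∈ (slice n r).filter (fun R => ¬ 2 * (n - r).choose (k - r) <
        2 * deg F R + (n - k - r).choose (k - r)),
        (n.choose r : ℝ) * (deg F R : ℝ) ^ p ≤ (s : ℝ) ^ p := by
      intro R hR
      rw [mem_filter, mem_powersetCard] at hR
      exact hNLB s m (n.choose r) (deg F R) p hs1 hN1 hp hlog (not_lt.1 hR.2)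
    have hsplit : ell r p F = ∑ R ∈ H, (deg F R : ℝ) ^ p +
        ∑ R ∈ (slice n r).filter (fun R => ¬ 2 * (n - r).choose (k - r) <
          2 * deg F R + (n - k - r).choose (k - r)), (deg F R : ℝ) ^ p := by
      unfold ell
      exact (sum_filter_add_sum_filter_not _ _ _).symm
    have h1 : ∑ R ∈ H, (deg F R : ℝ) ^ p ≤ (H.card : ℝ) * (s : ℝ) ^ p := by
      have h5 : ∀ R ∈ H, (deg F R : ℝ) ^ p ≤ (s : ℝ) ^ p := by
        intro R hR
        rw [hH, mem_filter, mem_powersetCard] at hR
        refine Real.rpow_le_rpow (Nat.cast_nonneg _) ?_ hp0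
        exact_mod_cast f1 R hR.1.2
      refine (sum_le_sum h5).trans (le_of_eq ?_)
      rw [sum_const, nsmul_eq_mul]
    have h2 : ∑ R ∈ (slice n r).filter (fun R => ¬ 2 * (n - r).choose (k - r) <
          2 * deg F R + (n - k - r).choose (k - r)), (deg F R : ℝ) ^ p ≤ (s : ℝ) ^ p := by
      refine le_of_mul_le_mul_left ?_ hN0
      rw [mul_sum]
      refine (sum_le_sum hlow).trans ?_
      rw [sum_const, nsmul_eq_mul]
      refine mul_le_mul_of_nonneg_right ?_ hsp
      have h6 : ((slice n r).filter (fun R => ¬ 2 * (n - r).choose (k - r) <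
          2 * deg F R + (n - k - r).choose (k - r))).card ≤ n.choose r := by
        refine (card_filter_le _ _).trans (le_of_eq ?_)
        rw [card_powersetCard, card_univ, Fintype.card_fin]
      exact_mod_cast h6
    have h4 : (H.card : ℝ) + 1 ≤ (M : ℝ) := by exact_mod_cast hlt
    rw [hsplit]
    refine le_trans (add_le_add h1 h2) (le_trans ?_ hstar)
    nlinarith
  · -- the sets of large degree form a star
    obtain ⟨T', hT', hall⟩ := hUNI n r t H ht htr hr1 hr2 f2 heq
    have hHs : H = (slice n r).filter (fun R => T' ⊆ R) := by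
      refine Finset.eq_of_subset_of_card_le (fun A hA => ?_) ?_
      · rw [mem_filter]
        refine ⟨?_, hall A hA⟩
        rw [hH, mem_filter] at hA
        exact hA.1
      · rw [Pool.Agent.P8H90.TI.card_above n r T' (by rw [hT']; exact htr.le), hT', heq]
    have hfull : ∀ R : Finset (Fin n), R.card = r → T' ⊆ R →
        2 * (n - r).choose (k - r) < 2 * deg F R + (n - k - r).choose (k - r) := by
      intro R hR hTR
      have h1 : R ∈ H := by
        rw [hHs, mem_filter, mem_powersetCard]
        exact ⟨⟨subset_univ _, hR⟩, hTR⟩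
      rw [hH, mem_filter] at h1
      exact h1.2
    have hsub := f3 T' hT' hfull
    have hFs : F ⊆ star k T' := by
      intro A hA
      unfold Pool.Agent.P8H39.TI.star
      rw [mem_filter, mem_powersetCard]
      exact ⟨⟨subset_univ _, hF.1 A hA⟩, hsub A hA⟩
    have h1 : ell r p F ≤ ell r p (star k T') := by
      unfold ell
      refine sum_le_sum fun R _ => Real.rpow_le_rpow (Nat.cast_nonneg _) ?_ hp0
      exact_mod_cast Pool.Agent.P8H90.TI.deg_mono hFs R
    rw [Pool.Agent.P8H57.TI.t_SYM n k r p T' T (by rw [hT', hT])] at h1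
    exact h1

end Pool.Agent.P8H52.TI6
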