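import Pool.Agent.P8H39.TI.Stm6

/-! # Project TI (helper39), package NLG -/

set_option autoImplicit false

namespace Pool.Agent.P8H52.TI6

open Finset Pool.Agent.P8H39.TI

theorem t_NLG : S_NLG := by
  intro s N p hs hN hp h
  have hs' : (1 : ℝ) ≤ s := by exact_mod_cast hs
  have hs0 : (0 : ℝ) < s := by linarith
  have hN' : (0 : ℝ) < N := by exact_mod_cast hN
  have h1 : (0 : ℝ) ≤ 1 - 1 / s := by
    rw [sub_nonneg, div_le_one hs0]
    exact hs'
  have h2 : (s : ℝ) - 1 = s * (1 - 1 / s) := by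
    field_simp
  have h3 : (1 : ℝ) - 1 / s ≤ Real.exp (-(1 / s)) := by
    have := Real.add_one_le_exp (-(1 / (s : ℝ)))
    linarith
  have h4 : (1 - 1 / (s : ℝ)) ^ p ≤ Real.exp (-(p / s)) := by
    refine (Real.rpow_le_rpow h1 h3 (by linarith)).trans (le_of_eq ?_)
    rw [← Real.exp_mul]
    congr 1
    ring
  have h5 : (N : ℝ) ≤ Real.exp (p / s) := by
    rw [← Real.exp_log hN', Real.exp_le_exp, le_div_iff₀ hs0]
    linarith
  rw [h2, Real.mul_rpow hs0.le h1]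
  have h6 : (0 : ℝ) ≤ (s : ℝ) ^ p := Real.rpow_nonneg hs0.le p
  calc (N : ℝ) * ((s : ℝ) ^ p * (1 - 1 / (s : ℝ)) ^ p)
      ≤ Real.exp (p / s) * ((s : ℝ) ^ p * Real.exp (-(p / s))) := by
        refine mul_le_mul h5 (mul_le_mul_of_nonneg_left h4 h6) ?_ (Real.exp_pos _).le
        exact mul_nonneg h6 (Real.rpow_nonneg h1 p)
    _ = (s : ℝ) ^ p * (Real.exp (p / s) * Real.exp (-(p / s))) := by ring
    _ = (s : ℝ) ^ p := by rw [← Real.exp_add, add_neg_cancel, Real.exp_zero, mul_one]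

end Pool.Agent.P8H52.TI6
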